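import Pool.Agent.Q125.Pref.Main

set_option autoImplicit false

namespace Pool.Agent.Results.MP_69f1cd_co.NoFourCycle

open Q125.Pref

/-- The answer to Q1 is negative, even for strict games and for almost all sizes: whenever
`m ≥ 4` and `n ≥ 5`, or `m ≥ 3` and `n ≥ 8`, there is a strict `m × n` game whose preference graph
is strongly connected and contains no directed `4`-cycle. -/
theorem result (m n : ℕ) (h : (4 ≤ m ∧ 5 ≤ n) ∨ (3 ≤ m ∧ 8 ≤ n)) :
    ∃ u₁ u₂ : Fin m → Fin n → ℝ,
      IsStrict u₁ u₂ ∧ StronglyConnected u₁ u₂ ∧ ¬ HasFourCycle u₁ u₂ :=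
  main m n h

end Pool.Agent.Results.MP_69f1cd_co.NoFourCycle
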